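import Pool.Agent.Work.MP_d65f04_ag.Main

/-!
There is a field `K` of characteristic zero and cohomological dimension at most one, and a smooth,
geometrically integral and geometrically unirational intersection `X` of three quadrics in `P^6`
over `K`, with two rational points `P`, `Q` such that the zero-cycle `P - Q` of degree zero is not
rationally equivalent to zero on `X`.
-/

namespace Pool.Agent.Results.MP_d65f04_ag.Counterexample

theorem result : ∃ (K : Type) (_ : Field K), CharZero K ∧ Zc68.CdLEOne K ∧
    ∃ F : Fin 3 → MvPolynomial (Fin 7) K, (∀ i, (F i).IsHomogeneous 2) ∧ Zc68.SmoothCI F ∧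
      Zc68.GeomUnirational F ∧ ∃ (P Q : Fin 7 → K) (hP : P ≠ 0) (hQ : Q ≠ 0),
        Zc68.OnX F P ∧ Zc68.OnX F Q ∧
          Finsupp.single (Zc68.ratPt P hP) 1 - Finsupp.single (Zc68.ratPt Q hQ) 1 ∉
            Zc68.RatTrivial F :=
  Zc68.main

end Pool.Agent.Results.MP_d65f04_ag.Counterexample
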